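import Pool.Agent.K9h58.PT.AE2

/-!
# Sacks' question has a positive answer almost everywhere

`W r X` is the set c.e. in `X` with index `r`, `J X` is the jump of `X`, `le Y X` is Turing
reducibility `Y ≤_T X` (Mathlib's), `ch P` is the characteristic function of `P` (all in
`Pool/Agent/H639/LU/Defs.lean`). `jn 0 X Y` is the join `X ⊕ Y`, `z0` is the empty set, and `lam` is
the fair coin measure on Cantor space (`Pool/Agent/Helper227/Defs.lean`).

The first part says: for every low noncomputable c.e. set `A` there is an index `r` which is a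
solution to Post's problem for all oracles, `X <_T W_r^X <_T X'` for all `X`, and for which
`W_r^Y ≡_T X ⊕ A` for almost all `X` and all `Y ≡_T X`.

The second part is the consequence for the question: there is an index `r` such that
`X <_T W_r^X <_T X'` for all `X` (condition (i)), and such that for almost all `X` condition (ii)
holds for all `Y ≡_T X`.

The operator `X ↦ X ⊕ A` is degree invariant, but it is not a solution for the sets `X` which
compute `A`, and for those with `X' ≤_T X ⊕ A`. These sets form a null set, but the complement is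
not `Σ⁰₃`. The proof finds a uniformly `Σ⁰₃` sequence of classes of sets `X` with `A ≰_T X` and
`∅' ≰_T X ⊕ A` which together have measure one, and applies the gluing theorem
(`Pool/Agent/K9h58/PT/Glue.lean`). The classes: if `C` is not computable in `U`, then for every
program `e` the measure of the set of all `X` for which `e` computes the first `m` digits of `C`
from `X ⊕ U` tends to zero with `m`. Let `m(e)` be the first `m` at which it is at most
`2^{-n-e-1}`. The class `n` consists of the sets `X` for which no program `e` computes the first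
`m(e)` digits of `C`. This class is `Π⁰₁` in `∅'` if `U` is low and `C ≤_T ∅'`.
-/

set_option autoImplicit false

namespace Pool.Agent.Results.MP_57825d_lc.AlmostEverywhere

open Nat.Partrec (Code)
open MeasureTheory
open Pool.Agent.H639.LU Pool.Agent.K9h58.PT Pool.Agent.Y579.PP
open Pool.Agent.Helper227 (lam)

theorem result :
    (∀ a : Code, ¬ le (ch (W a z0)) z0 → le (ch (J (ch (W a z0)))) (ch (J z0)) →
      ∃ r : Code,
        (∀ X : ℕ → Bool, le X (ch (W r X)) ∧ ¬ le (ch (W r X)) X ∧
          le (ch (W r X)) (ch (J X)) ∧ ¬ le (ch (J X)) (ch (W r X))) ∧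
        ∀ᵐ X ∂lam, ∀ Y : ℕ → Bool, le X Y → le Y X →
          le (ch (W r Y)) (jn 0 X (ch (W a z0))) ∧ le (jn 0 X (ch (W a z0))) (ch (W r Y))) ∧
    ∃ r : Code,
      (∀ X : ℕ → Bool, le X (ch (W r X)) ∧ ¬ le (ch (W r X)) X ∧
        le (ch (W r X)) (ch (J X)) ∧ ¬ le (ch (J X)) (ch (W r X))) ∧
      ∀ᵐ X ∂lam, ∀ Y : ℕ → Bool, le X Y → le Y X →
        le (ch (W r X)) (ch (W r Y)) ∧ le (ch (W r Y)) (ch (W r X)) := by
  have h1 : ∀ a : Code, ¬ le (ch (W a z0)) z0 → le (ch (J (ch (W a z0)))) (ch (J z0)) →
      ∃ r : Code,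
        (∀ X : ℕ → Bool, le X (ch (W r X)) ∧ ¬ le (ch (W r X)) X ∧
          le (ch (W r X)) (ch (J X)) ∧ ¬ le (ch (J X)) (ch (W r X))) ∧
        ∀ᵐ X ∂lam, ∀ Y : ℕ → Bool, le X Y → le Y X →
          le (ch (W r Y)) (jn 0 X (ch (W a z0))) ∧ le (jn 0 X (ch (W a z0))) (ch (W r Y)) := by
    intro a ha hl
    obtain ⟨r, k1, k2⟩ := ae_join a hl ha
    refine ⟨r, k1, ?_⟩
    filter_upwards [k2] with D hD Y g1 g2
    exact hD Y g2 g1
  refine ⟨h1, ?_⟩
  obtain ⟨a, ha, ha'⟩ := exists_low
  obtain ⟨r, k1, k2⟩ := h1 a ha' ha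
  refine ⟨r, k1, ?_⟩
  filter_upwards [k2] with X hX Y g1 g2
  have e1 := hX X (Pool.Agent.H869R3.FN.le_refl' X) (Pool.Agent.H869R3.FN.le_refl' X)
  have e2 := hX Y g1 g2
  exact ⟨Pool.Agent.H869R3.FN.le_trans' e1.1 e2.2, Pool.Agent.H869R3.FN.le_trans' e2.1 e1.2⟩

end Pool.Agent.Results.MP_57825d_lc.AlmostEverywhere
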