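import Pool.Agent.K9h58.PT.Glue

/-!
# Gluing of partial degree invariant solutions to Post's problem

`W r X` is the set c.e. in `X` with index `r`, `J X` is the jump of `X`, `le Y X` is Turing
reducibility `Y ≤_T X` (Mathlib's), `ch P` is the characteristic function of `P` (all in
`Pool/Agent/H639/LU/Defs.lean`). `jn 0 X Y` is the join `X ⊕ Y`.

The theorem says that partial solutions to Post's problem, which are given on the members of a
uniformly `Σ⁰₃` sequence of classes and which fit together, can be glued, and that the result can be
extended to one index which is a solution to Post's problem for all oracles.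

On the class `C n` the solution is `D ↦ T q n D = D ⊕ {x : ⟨n, x⟩ ∈ W_q^D}`. It need only be defined
for the members of the class, and the class need not be closed under Turing equivalence. The
solutions fit together if Turing equivalent members `D` of `C n` and `E` of `C m` have Turing
equivalent values; for `n = m` this is degree invariance of the solution on the class `C n`.
The index `r` satisfies `X <_T W_r^X <_T X'` for all oracles `X`; if `X` is Turing equivalent to a
member `D` of `C n`, then `W_r^X ≡_T T q n D`, so `r` is degree invariant on the set of all oracles
which are Turing equivalent to a member of one of the classes; for all other oracles `W_r^X` is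
low over `X`.

In particular (one class, `C n = K` for all `n`) every solution to Post's problem which is degree
invariant on a `Σ⁰₃` class `K` has the same degrees on the Turing saturation of `K` as an index which
is degree invariant there and which is a solution for all oracles.

The proof is a finite injury construction which codes the least true guess: that `i` computes from
`X` a member `D` of the class `(n, b)`, and that `j` computes `X` from `D`.
-/

set_option autoImplicit false

namespace Pool.Agent.Results.MP_57825d_lc.Gluing

open Nat.Partrec (Code)
open Encodable
open Pool.Agent.H639.LU Pool.Agent.K9h58.PT Pool.Agent.Y579.PP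

/-- `D ⊕ {x : ⟨n, x⟩ ∈ W_q^D}`, the value for `D` of the solution on the class `n` -/
noncomputable def T (q : Code) (n : ℕ) (D : ℕ → Bool) : ℕ → Bool :=
  jn 0 D (ch fun x => W q D (Nat.pair n x))

theorem result (p q : Code) (C : ℕ → (ℕ → Bool) → Prop)
    -- the classes `C n` are `Σ⁰₃`, uniformly in `n`
    (hC : ∀ n Y, C n Y ↔ ∃ b, ∀ a, W p Y (encode ((n, b, a) : ℕ × ℕ × ℕ)))
    -- the solutions on the classes are degree invariant and fit together
    (hfit : ∀ n m D E, C n D → C m E → le D E → le E D → le (T q n D) (T q m E))
    -- they are solutions to Post's problem
    (hpost : ∀ n D, C n D → ¬ le (T q n D) D ∧ ¬ le (ch (J D)) (T q n D)) :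
    ∃ r : Code,
      -- a solution to Post's problem for all oracles
      (∀ X : ℕ → Bool, le X (ch (W r X)) ∧ ¬ le (ch (W r X)) X ∧
        le (ch (W r X)) (ch (J X)) ∧ ¬ le (ch (J X)) (ch (W r X))) ∧
      -- the values for the oracles which are equivalent to a member of a class
      (∀ n D, C n D → ∀ X : ℕ → Bool, le X D → le D X →
        le (ch (W r X)) (T q n D) ∧ le (T q n D) (ch (W r X))) ∧
      -- all other values are low over the oracle
      ∀ X : ℕ → Bool, (∀ n D, C n D → ¬ (le D X ∧ le X D)) →
        le (ch (J (ch (W r X)))) (ch (J X)) := by
  obtain ⟨r, h1, h2⟩ := glue p q C hC hfit fun n D hD =>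
    ⟨fun h => (hpost n D hD).1 (le_jn (Pool.Agent.H869R3.FN.le_refl' D) h), (hpost n D hD).2⟩
  exact ⟨r, fun X => ⟨(h1 X).1, (h1 X).2.1, (h1 X).2.2.1, (h1 X).2.2.2.1⟩, h2,
    fun X hX => (h1 X).2.2.2.2 hX⟩

end Pool.Agent.Results.MP_57825d_lc.Gluing
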