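import Pool.Agent.K9h58.PT.Mg4

/-!
# Solutions to Post's problem agree with a join with a fixed set on a meager set of oracles only

`W r X` is the set c.e. in `X` with index `r`, `J X` is the jump of `X`, `le Y X` is Turing
reducibility `Y ≤_T X` (Mathlib's), `ch P` is the characteristic function of `P` (all in
`Pool/Agent/H639/LU/Defs.lean`). `jn 0 X Y` is the join `X ⊕ Y`. `IsMeagre` is Mathlib's predicate,
for the usual topology on the space `ℕ → Bool` of all sets.

The degree invariant operators which are easily seen to be nontrivial are the joins `X ↦ X ⊕ A`
with a fixed set `A`. The theorem `AlmostEverywhere` of this folder gives an index `r` with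
`X <_T W_r^X <_T X'` for all `X` and with `W_r^X ≡_T X ⊕ A` for almost all `X`. The present theorem
says that the analogue for Baire category fails for every index and every set `A`: if `W_r^X ≰_T X`
and `X' ≰_T W_r^X` for all `X`, then `W_r^X ≡_T X ⊕ A` holds for a meager set of oracles `X` only. So
an index which satisfies condition (i) for all oracles and condition (ii) on a comeager set, if
there is one, is not of this form. The second part is the relativised version, for operators which
solve Post's problem for the oracles `X ⊕ Z` only, for example on the cone above `Z`.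

Proof. Otherwise there are programs `i` and `j` such that the set of all `X` for which `i` reduces
`X ⊕ A` to `W_r^X` and `j` reduces `W_r^X` to `X ⊕ A` is dense above a string. If `j` shows, from a
string `τ` and a part of `A`, that `n` is not in `W_r^X`, then this is correct for all `X` which
extend `τ`, by the density. So initial segments of `W_r^X` can be forced, and the strings which force
`i` to compute `(X ⊕ A)(m)` from such a segment form a dense set which is c.e. in `A`. Since `A` or
its complement is not c.e., the coding of Posner and Robinson can be carried out inside of these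
dense sets; it gives an `X` with `X' ≤_T X ⊕ A ≤_T W_r^X`.
-/

set_option autoImplicit false

namespace Pool.Agent.Results.MP_57825d_lc.MeagerJoins

open Nat.Partrec (Code)
open Pool.Agent.H639.LU Pool.Agent.Y579.PP

theorem result :
    -- 1. solutions for all oracles
    (∀ r : Code, (∀ X, ¬ le (ch (W r X)) X ∧ ¬ le (ch (J X)) (ch (W r X))) →
      ∀ A : ℕ → Bool,
        IsMeagre {X : ℕ → Bool | le (ch (W r X)) (jn 0 X A) ∧ le (jn 0 X A) (ch (W r X))}) ∧
    -- 2. solutions for the oracles `X ⊕ Z`
    ∀ (r : Code) (Z : ℕ → Bool),
      (∀ X, ¬ le (ch (W r (jn 0 X Z))) (jn 0 X Z) ∧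
        ¬ le (ch (J (jn 0 X Z))) (ch (W r (jn 0 X Z)))) →
      ∀ A : ℕ → Bool,
        IsMeagre {X : ℕ → Bool | le (ch (W r (jn 0 X Z))) (jn 0 (jn 0 X Z) A) ∧
          le (jn 0 (jn 0 X Z) A) (ch (W r (jn 0 X Z)))} :=
  ⟨fun r h A => Pool.Agent.K9h58.PT.Mg.meager_all r h A,
    fun r Z h A => Pool.Agent.K9h58.PT.Mg.meager_rel r Z h A⟩

end Pool.Agent.Results.MP_57825d_lc.MeagerJoins
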