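import Pool.Agent.K9h58.PT.Fin

/-!
# A solution to Post's problem which is degree invariant on effective partial transversals

`W r X` is the set c.e. in `X` with index `r`, `J X` is the jump of `X`, `le Y X` is Turing
reducibility `Y ≤_T X` (Mathlib's), `ch P` is the characteristic function of `P` (all in
`Pool/Agent/H639/LU/Defs.lean`). `jn 0 X Y` is the join `X ⊕ Y`.

`hop l` (in `Pool/Agent/K9h58/PT/Hop.lean`) is the set which is obtained from the empty set by the
steps `Z ↦ Z ⊕ W_r^Z`, `r` in the list `l`: `hop [] = ∅` and `hop (r :: l) = hop l ⊕ W_r^(hop l)`.
So the degrees of the sets `hop l`, `l` of length `n`, are the `n`-REA degrees: all c.e. degrees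
for `n = 1`; all degrees of `n`-c.e. sets and the degrees of `∅', ∅'', ∅''', …` are among them.

A class `K` of sets is a partial transversal if it has at most one member in each Turing degree.
The hypothesis `hC` says that the classes `C n` are `Σ⁰₃`, uniformly in `n`.

The theorem gives one index `r` which is a solution to Post's problem for all oracles `X`, with
`W_r^X` low over `X`, and which is degree invariant on all degrees which contain a member of one
of the classes `C n`, or are `n`-REA for some `n`.

The proof is a finite injury construction in which the least true guess `(m, i, j)` is coded: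
that `i` computes from `X` a member `D` of the class `m` and that `j` computes `X` from `D`. The
operator which is coded for the class `m` is the same construction for the oracle `D`, with
guesses about classes of smaller number only, by the recursion theorem.
-/

set_option autoImplicit false

namespace Pool.Agent.Results.MP_57825d_lc.Transversals

open Nat.Partrec (Code)
open Encodable
open Pool.Agent.H639.LU Pool.Agent.K9h58.PT

theorem result (p : Code) (C : ℕ → (ℕ → Bool) → Prop)
    -- the classes `C n` are `Σ⁰₃`, uniformly in `n`
    (hC : ∀ n Y, C n Y ↔ ∃ b, ∀ a, W p Y (encode ((n, b, a) : ℕ × ℕ × ℕ)))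
    -- each class `C n` has at most one member in each Turing degree
    (hT : ∀ n Y Z, C n Y → C n Z → le Y Z → le Z Y → Y = Z) :
    ∃ r : Code,
      -- a solution to Post's problem for all oracles
      (∀ X : ℕ → Bool, le X (ch (W r X)) ∧ ¬ le (ch (W r X)) X ∧
        le (ch (W r X)) (ch (J X)) ∧ ¬ le (ch (J X)) (ch (W r X)) ∧
        le (ch (J (ch (W r X)))) (ch (J X))) ∧
      -- degree invariance on the degrees which meet some class `C n`, or contain some `hop l`
      ∀ X Y : ℕ → Bool, le X Y → le Y X →
        ((∃ n D, C n D ∧ le D X ∧ le X D) ∨ ∃ l, le (hop l) X ∧ le X (hop l)) →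
        le (ch (W r X)) (ch (W r Y)) ∧ le (ch (W r Y)) (ch (W r X)) :=
  main p C hC hT

end Pool.Agent.Results.MP_57825d_lc.Transversals
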